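import Pool.Agent.L0h1.JS.Fin

/-!
# One tower for all the good sets of Schneider's conjecture (helper1)
-/

set_option autoImplicit false

open scoped Classical

namespace Pool.Agent.L0h1.GT.Sch

open Finset Filter
open Pool.Agent.L0h86.JR (nR sqf amR)
open Pool.Agent.L0h86.JS (CrG FamG S_LAWG)
open Pool.Agent.L0h1.SJ (GA sqf_spec sqf_unique prod_ne mem_GA GA_fin nR_congr amR_true eta_pos)
open Pool.Agent.L0h1.JS (GoodG)

theorem sqf_sq {e : ℕ} (he : Squarefree e) : sqf e = e :=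
  sqf_unique he.ne_zero he (f := 1) (by ring)

/-- large common extensions -/
theorem sim_large (hL : S_LAWG) (G : Finset ℕ) (hG : ∀ e ∈ G, Squarefree e) {q : ℕ} (hq : 0 < q)
    (r : ℕ) (hF : {m | FamG q r m}.Infinite) (K : ℕ) :
    ∃ m, K < m ∧ FamG q r m ∧ ∀ e ∈ G, CrG (-((sqf (e * m) : ℕ) : ℤ)) := by
  set d : Fin G.card → ℕ := fun i => (G.equivFin.symm i : ℕ) with hd
  have hdG : ∀ i, d i ∈ G := fun i => (G.equivFin.symm i).2
  have hsurj : ∀ e ∈ G, ∃ i, d i = e := by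
    intro e he
    refine ⟨G.equivFin ⟨e, he⟩, ?_⟩
    simp only [hd, Equiv.symm_apply_apply]
  have hpos : ∀ l, 0 < d l := fun l => Nat.pos_of_ne_zero (hG _ (hdG l)).ne_zero
  have hinj : Function.Injective fun l => sqf (d l) := by
    intro i j hij
    have h1 : sqf (d i) = sqf (d j) := hij
    rw [sqf_sq (hG _ (hdG i)), sqf_sq (hG _ (hdG j))] at h1
    exact G.equivFin.symm.injective (Subtype.ext h1)
  have h1 := hL G.card d hpos hinj q r hq hF.nonempty (fun _ => true)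
  rw [amR_true] at h1
  by_contra hcon
  push Not at hcon
  have h2 : Tendsto (fun X : ℕ => nR (FamG q r) (fun _ => True) X) atTop atTop := by
    refine tendsto_atTop_atTop.2 fun b => ?_
    obtain ⟨T, hT, hTc⟩ := hF.exists_subset_card_eq b
    refine ⟨T.sup id, fun X hX => ?_⟩
    rw [← hTc]
    unfold nR
    refine Finset.card_le_card fun m hm => ?_
    have hm' : FamG q r m := hT hm
    simp only [mem_filter, mem_Icc]
    exact ⟨⟨Nat.pos_of_ne_zero hm'.1.ne_zero, (Finset.le_sup (f := id) hm).trans hX⟩, hm', trivial⟩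
  have h3 : Tendsto (fun X : ℕ => (K : ℝ) / (nR (FamG q r) (fun _ => True) X : ℝ)) atTop
      (nhds 0) :=
    Tendsto.div_atTop tendsto_const_nhds (tendsto_natCast_atTop_atTop.comp h2)
  have h4 : ∀ X : ℕ, (nR (FamG q r) (fun m => ∀ l, (CrG (-(sqf (d l * m) : ℤ)) ↔
      (fun _ : Fin G.card => true) l = true)) X : ℝ) /
      nR (FamG q r) (fun _ => True) X ≤ (K : ℝ) / (nR (FamG q r) (fun _ => True) X : ℝ) := by
    intro X
    refine div_le_div_of_nonneg_right ?_ (Nat.cast_nonneg _)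
    have h5 : nR (FamG q r) (fun m => ∀ l, (CrG (-(sqf (d l * m) : ℤ)) ↔
      (fun _ : Fin G.card => true) l = true)) X ≤ (Icc 1 K).card := by
      unfold nR
      refine Finset.card_le_card fun m hm => ?_
      simp only [mem_filter, mem_Icc] at hm
      rw [mem_Icc]
      refine ⟨hm.1.1, ?_⟩
      by_contra hlt
      obtain ⟨e, he, hne⟩ := hcon m (not_le.1 hlt) hm.2.1
      obtain ⟨l, rfl⟩ := hsurj e he
      exact hne ((hm.2.2 l).2 trivial)
    rw [Nat.card_Icc] at h5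
    exact_mod_cast (by omega : nR (FamG q r) (fun m => ∀ l, (CrG (-(sqf (d l * m) : ℤ)) ↔
      (fun _ : Fin G.card => true) l = true)) X ≤ K)
  have h6 := le_of_tendsto_of_tendsto' h1 h3 h4
  have h7 := pow_pos eta_pos G.card
  linarith

/-- **the step** -/
theorem step (hL : S_LAWG) {k c : ℕ} (hk : 0 < k) (hc : c.Coprime k) (G : Finset ℕ)
    (hG : ∀ e ∈ G, Squarefree e) {K : ℕ} (hK : 0 < K) :
    ∃ D : ℕ, Squarefree D ∧ 1 < D ∧ D ≡ c [MOD k] ∧ D.Coprime K ∧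
      ∀ e ∈ G, Squarefree (e * D) ∧ CrG (-((e * D : ℕ) : ℤ)) := by
  set P : ℕ := K * ∏ a ∈ G, a with hP
  have hP0 : 0 < P := Nat.mul_pos hK (Finset.prod_pos fun e he =>
    Nat.pos_of_ne_zero (hG e he).ne_zero)
  set W : ℕ := ∏ p ∈ P.primeFactors \ k.primeFactors, p with hW
  have hW0 : 0 < W := Finset.prod_pos fun p hp =>
    (Nat.prime_of_mem_primeFactors (Finset.mem_sdiff.1 hp).1).pos
  have hkW : k.Coprime W := by
    refine Nat.Coprime.prod_right fun p hp => ?_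
    obtain ⟨h1, h2⟩ := Finset.mem_sdiff.1 hp
    have hpp := Nat.prime_of_mem_primeFactors h1
    refine (Nat.Coprime.symm ((Nat.Prime.coprime_iff_not_dvd hpp).2 fun h3 => h2 ?_))
    exact Nat.mem_primeFactors.2 ⟨hpp, h3, hk.ne'⟩
  obtain ⟨r, hr1, hr2⟩ := Nat.chineseRemainder hkW c 1
  have hq : 0 < k * W := Nat.mul_pos hk hW0
  have hrq : r.Coprime (k * W) := by
    refine Nat.Coprime.mul_right ?_ ?_
    · have h1 : r.gcd k = c.gcd k := hr1.gcd_eq
      exact h1.trans hc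
    · have h1 : r.gcd W = (1 : ℕ).gcd W := hr2.gcd_eq
      rw [Nat.gcd_one_left] at h1
      exact h1
  have hinf : {m | FamG (k * W) r m}.Infinite := by
    rw [Set.infinite_iff_exists_gt]
    intro K
    obtain ⟨p, hp, hpp, hp1⟩ := Nat.forall_exists_prime_gt_and_modEq (q := k * W) (a := r) K
      (by omega) hrq
    exact ⟨p, ⟨hpp.prime.squarefree, hp1⟩, hp⟩
  obtain ⟨m, hmK, hmF, hmG⟩ := sim_large hL G hG hq r hinf 1
  have hmr : m ≡ r [MOD k * W] := hmF.2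
  have hmk : m ≡ c [MOD k] := (Nat.ModEq.of_mul_right W hmr).trans hr1
  have hmW : m ≡ 1 [MOD W] := (Nat.ModEq.of_mul_left k hmr).trans hr2
  have hcop : m.Coprime P := by
    refine Nat.coprime_of_dvd fun p hp hpm h1 => ?_
    by_cases h2 : p ∣ k
    · have h3 : m.gcd k = c.gcd k := hmk.gcd_eq
      have h4 : p ∣ m.gcd k := Nat.dvd_gcd hpm h2
      rw [h3, show c.gcd k = 1 from hc] at h4
      exact hp.one_lt.ne' (Nat.dvd_one.1 h4)
    · have h5 : p ∣ W := by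
        refine Finset.dvd_prod_of_mem (fun p => p) (Finset.mem_sdiff.2 ⟨?_, fun h6 => h2 ?_⟩)
        · exact Nat.mem_primeFactors.2 ⟨hp, h1, hP0.ne'⟩
        · exact Nat.dvd_of_mem_primeFactors h6
      have h3 : m.gcd W = (1 : ℕ).gcd W := hmW.gcd_eq
      rw [Nat.gcd_one_left] at h3
      have h4 : p ∣ m.gcd W := Nat.dvd_gcd hpm h5
      rw [h3] at h4
      exact hp.one_lt.ne' (Nat.dvd_one.1 h4)
  refine ⟨m, hmF.1, hmK, hmk, Nat.Coprime.coprime_dvd_right (Dvd.intro _ rfl) hcop, ?_⟩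
  intro e he
  have h1 : m.Coprime e := Nat.Coprime.coprime_dvd_right
    (Dvd.dvd.mul_left (Finset.dvd_prod_of_mem (fun x => x) he) K) hcop
  have h2 : Squarefree (e * m) := (Nat.squarefree_mul h1.symm).2 ⟨hG e he, hmF.1⟩
  have h3 := hmG e he
  rw [sqf_sq h2] at h3
  exact ⟨h2, h3⟩

/-- **one sequence for all numbers** -/
theorem tower (hL : S_LAWG) {k c : ℕ} (hk : 0 < k) (hc : c.Coprime k) (S₀ : Finset ℕ) :
    ∃ D : ℕ → ℕ, (∀ i, Squarefree (D i) ∧ 1 < D i ∧ D i ≡ c [MOD k]) ∧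
      (∀ i j, i ≠ j → (D i).Coprime (D j)) ∧
      (∀ i s, s ≠ 0 → (s ∈ S₀ ∨ s ≤ i) → (D i).Coprime s) ∧
      ∀ e : ℕ, Squarefree e → CrG (-(e : ℤ)) → ∀ j, (e ∈ S₀ ∨ e ≤ j) → ∀ T : Finset ℕ,
        (∀ i ∈ T, j ≤ i) →
        Squarefree (e * ∏ i ∈ T, D i) ∧ CrG (-((e * ∏ i ∈ T, D i : ℕ) : ℤ)) := by
  set Q : ℕ → Prop := fun e => Squarefree e ∧ CrG (-(e : ℤ)) with hQ
  have hstep : ∀ y : Finset ℕ × ℕ, ((∀ x ∈ y.1, Q x) ∧ 0 < y.2) →
      ∃ D : ℕ, Squarefree D ∧ 1 < D ∧ D ≡ c [MOD k] ∧ D.Coprime y.2 ∧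
        ∀ x ∈ y.1, Q (x * D) := fun y hy => step hL hk hc y.1 (fun e he => (hy.1 e he).1) hy.2
  choose! g hg using hstep
  set nw : ℕ → Finset ℕ := fun k => (Finset.range (k + 1)).filter Q with hnw
  set nx : ℕ → Finset ℕ × ℕ → Finset ℕ × ℕ := fun k y =>
    (y.1 ∪ y.1.image (fun x => x * g y) ∪ nw (k + 1), y.2 * g y * (k + 1)) with hnx
  set P₀ : ℕ := ∏ s ∈ S₀.erase 0, s with hP₀
  have hP₀0 : 0 < P₀ := Finset.prod_pos fun s hs => Nat.pos_of_ne_zero (ne_of_mem_erase hs)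
  set st : ℕ → Finset ℕ × ℕ := fun k => Nat.rec (S₀.filter Q, P₀) (fun k y => nx k y) k with hst
  have hst0 : st 0 = (S₀.filter Q, P₀) := rfl
  have hst1 : ∀ k, st (k + 1) = nx k (st k) := fun k => rfl
  have hinv : ∀ k, (∀ x ∈ (st k).1, Q x) ∧ 0 < (st k).2 := by
    intro k
    induction k with
    | zero =>
      rw [hst0]
      exact ⟨fun x hx => (mem_filter.1 hx).2, hP₀0⟩
    | succ k ih =>
      have h1 := hg _ ih
      rw [hst1]
      refine ⟨fun x hx => ?_, Nat.mul_pos (Nat.mul_pos ih.2 (by have := h1.2.1; omega))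
        (Nat.succ_pos k)⟩
      rcases mem_union.1 hx with h2 | h2
      · rcases mem_union.1 h2 with h3 | h3
        · exact ih.1 x h3
        · obtain ⟨y, hy, rfl⟩ := mem_image.1 h3
          exact h1.2.2.2.2 y hy
      · exact (mem_filter.1 h2).2
  set D : ℕ → ℕ := fun k => g (st k) with hD
  have hDk : ∀ k, _ := fun k => hg _ (hinv k)
  have hmono : ∀ j k, j ≤ k → (st j).1 ⊆ (st k).1 ∧ (st j).2 ∣ (st k).2 := by
    intro j k hjk
    induction k, hjk using Nat.le_induction with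
    | base => exact ⟨Subset.refl _, dvd_refl _⟩
    | succ k _ ih =>
      rw [hst1]
      exact ⟨ih.1.trans ((subset_union_left).trans subset_union_left),
        ih.2.trans ((Dvd.intro _ rfl).trans (Dvd.intro _ rfl))⟩
  have hsd : ∀ k s, s ≠ 0 → (s ∈ S₀ ∨ s ≤ k) → s ∣ (st k).2 := by
    intro k s hs0 hs
    rcases hs with hs | hs
    · have h1 : s ∣ (st 0).2 := by
        rw [hst0]
        exact Finset.dvd_prod_of_mem (fun x => x) (mem_erase.2 ⟨hs0, hs⟩)
      exact h1.trans (hmono 0 k (Nat.zero_le k)).2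
    · obtain ⟨t, rfl⟩ := Nat.exists_eq_succ_of_ne_zero hs0
      have h1 : t + 1 ∣ (st (t + 1)).2 := by
        rw [hst1]
        exact Dvd.intro_left _ rfl
      exact h1.trans (hmono (t + 1) k hs).2
  have hlt : ∀ i j, i < j → (D j).Coprime (D i) := by
    intro i j hij
    have h1 : D i ∣ (st (i + 1)).2 := by
      rw [hst1]
      exact (Dvd.intro_left _ rfl).trans (Dvd.intro _ rfl)
    exact Nat.Coprime.coprime_dvd_right (h1.trans (hmono (i + 1) j hij).2) (hDk j).2.2.2.1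
  have hclose : ∀ j k, j ≤ k → ∀ x ∈ (st j).1, ∀ T : Finset ℕ, (∀ i ∈ T, j ≤ i ∧ i < k) →
      (x * ∏ i ∈ T, D i) ∈ (st k).1 := by
    intro j k hjk
    induction k, hjk using Nat.le_induction with
    | base =>
      intro x hx T hT
      have : T = ∅ := Finset.eq_empty_of_forall_notMem fun i hi => by
        have := hT i hi
        omega
      rw [this, prod_empty, mul_one]
      exact hx
    | succ k hk ih =>
      intro x hx T hT
      by_cases hkT : k ∈ T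
      · have h1 : ∏ i ∈ T, D i = (∏ i ∈ T.erase k, D i) * D k := by
          rw [mul_comm, Finset.mul_prod_erase T D hkT]
        have h2 := ih x hx (T.erase k) (fun i hi => by
          have h3 := hT i (mem_of_mem_erase hi)
          have h4 := ne_of_mem_erase hi
          omega)
        rw [h1, ← mul_assoc, hst1]
        refine mem_union_left _ (mem_union_right _ (mem_image.2 ⟨_, h2, rfl⟩))
      · have h2 := ih x hx T (fun i hi => by
          have h3 := hT i hi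
          have h4 : i ≠ k := fun h => hkT (h ▸ hi)
          omega)
        exact (hmono k (k + 1) (Nat.le_succ k)).1 h2
  refine ⟨D, fun i => ⟨(hDk i).1, (hDk i).2.1, (hDk i).2.2.1⟩, ?_, fun i s hs0 hs =>
    Nat.Coprime.coprime_dvd_right (hsd i s hs0 hs) (hDk i).2.2.2.1, ?_⟩
  · intro i j hij
    rcases lt_or_gt_of_ne hij with h | h
    · exact (hlt i j h).symm
    · exact hlt j i h
  · intro e he hC j hj T hT
    have h0 : e ∈ (st j).1 := by
      rcases hj with hj | hj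
      · refine (hmono 0 j (Nat.zero_le j)).1 ?_
        rw [hst0]
        exact mem_filter.2 ⟨hj, he, hC⟩
      · obtain ⟨k, rfl⟩ := Nat.exists_eq_succ_of_ne_zero he.ne_zero
        refine (hmono (k + 1) j hj).1 ?_
        rw [hst1]
        refine mem_union_right _ (mem_filter.2 ⟨?_, he, hC⟩)
        rw [mem_range]
        simp
    obtain ⟨k, hk⟩ : ∃ k, j ≤ k ∧ ∀ i ∈ T, i < k := by
      refine ⟨max j (T.sup id + 1), le_max_left _ _, fun i hi => ?_⟩
      have : i ≤ T.sup id := Finset.le_sup (f := id) hi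
      have h2 := le_max_right j (T.sup id + 1)
      omega
    exact (hinv k).1 _ (hclose j k hk.1 _ h0 T fun i hi => ⟨hT i hi, hk.2 i hi⟩)

/-- **one tower for all good sets** -/
theorem good_tower {D : ℕ → ℕ} {j : ℕ} {S₀ : Finset ℕ} (hinj : Function.Injective D)
    (hD0 : ∀ i, D i ≠ 0)
    (h : ∀ e : ℕ, Squarefree e → CrG (-(e : ℤ)) → (e ∈ S₀ ∨ e ≤ j) → ∀ T : Finset ℕ,
        (∀ i ∈ T, j ≤ i) →
        Squarefree (e * ∏ i ∈ T, D i) ∧ CrG (-((e * ∏ i ∈ T, D i : ℕ) : ℤ)))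
    {A : Finset ℕ} (h0 : 0 ∉ A) (hA : GoodG A) (hj : ∀ e ∈ GA A, e ∈ S₀ ∨ e ≤ j) {T : Finset ℕ}
    (hT : ∀ i ∈ T, j ≤ i) : 0 ∉ A ∪ T.image D ∧ GoodG (A ∪ T.image D) := by
  have h0' : 0 ∉ A ∪ T.image D := by
    rw [mem_union, mem_image]
    rintro (h1 | ⟨i, -, hi⟩)
    · exact h0 h1
    · exact hD0 i hi
  refine ⟨h0', ?_⟩
  rintro e ⟨he, S, hS, f, hf⟩
  -- the part in `A`
  have hS1 : S.filter (· ∈ A) ⊆ A := fun x hx => (mem_filter.1 hx).2
  obtain ⟨s1, g, hg⟩ := sqf_spec (prod_ne h0 hS1)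
  have hmem := mem_GA h0 hS1
  -- the other part
  set T' : Finset ℕ := T.filter fun i => D i ∈ S.filter (· ∉ A) with hT'
  have hS2 : S.filter (· ∉ A) = T'.image D := by
    ext x
    rw [mem_image]
    constructor
    · intro hx
      have hx' := mem_filter.1 hx
      rcases mem_union.1 (hS hx'.1) with h1 | h1
      · exact absurd h1 hx'.2
      · obtain ⟨i, hi, rfl⟩ := mem_image.1 h1
        exact ⟨i, mem_filter.2 ⟨hi, hx⟩, rfl⟩
    · rintro ⟨i, hi, rfl⟩
      exact (mem_filter.1 hi).2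
  have h1 : ∏ a ∈ S, a = (∏ a ∈ S.filter (· ∈ A), a) * ∏ i ∈ T', D i := by
    rw [← Finset.prod_filter_mul_prod_filter_not S (· ∈ A) (fun a => a), hS2,
      Finset.prod_image fun a _ b _ h => hinj h]
  obtain ⟨k1, k2⟩ := h _ hmem.1 (hA _ hmem) (hj _ hmem) T' fun i hi => hT i (mem_filter.1 hi).1
  have h2 : e = sqf (∏ a ∈ S.filter (· ∈ A), a) * ∏ i ∈ T', D i := by
    have hP : ∏ a ∈ S, a ≠ 0 := prod_ne h0' hS
    have h3 : ∏ a ∈ S, a = (sqf (∏ a ∈ S.filter (· ∈ A), a) * ∏ i ∈ T', D i) * g ^ 2 := by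
      rw [h1]
      conv_lhs => rw [hg]
      ring
    rw [← sqf_unique hP he hf]
    exact sqf_unique hP k1 h3
  rw [h2]
  exact k2

/-! ### Number fields -/

open Pool.Agent.L0h86.JS (S_VMQN S_TRG)
open Pool.Agent.L0h1.JS.D (QBar ShaZero SqF SqI GoodSet CondE Fam count eta AllTwists)

/-- **the fields over a good set** -/
theorem fields (hV : S_VMQN) (hTR : S_TRG) {D : ℕ → ℕ} {j : ℕ} {A : Finset ℕ} (h0 : 0 ∉ A)
    (hD0 : ∀ i, D i ≠ 0)
    (hg : ∀ T : Finset ℕ, (∀ i ∈ T, j ≤ i) → GoodSet (A ∪ T.image D))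
    {L : IntermediateField ℚ QBar} (hfd : FiniteDimensional ℚ L)
    (hL : L ≤ SqI {b | b ∈ A ∨ ∃ i, j ≤ i ∧ b = D i}) {r : ℤ} (hr : r ≠ 0) : ShaZero L r := by
  obtain ⟨A', hA', hL'⟩ := Pool.Agent.L0h1.JS.fin_subI (L := L) hL
  have h1 : ∀ a : ℕ, a ∈ A' \ A → ∃ i, j ≤ i ∧ a = D i := by
    intro a ha
    rw [Finset.mem_sdiff] at ha
    rcases hA' ha.1 with h2 | h2
    · exact absurd h2 ha.2
    · exact h2
  choose! idx hidx using h1
  set T : Finset ℕ := (A' \ A).image idx with hT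
  have h2 : A' ⊆ A ∪ T.image D := by
    intro a ha
    by_cases h3 : a ∈ A
    · exact mem_union_left _ h3
    · have h4 := Finset.mem_sdiff.2 ⟨ha, h3⟩
      exact mem_union_right _ (mem_image.2 ⟨idx a, mem_image.2 ⟨a, h4, rfl⟩, (hidx a h4).2.symm⟩)
  have h3 : ∀ i ∈ T, j ≤ i := by
    intro i hi
    obtain ⟨a, ha, rfl⟩ := mem_image.1 hi
    exact (hidx a ha).1
  have h0' : 0 ∉ A ∪ T.image D := by
    rw [mem_union, mem_image]
    rintro (h1 | ⟨i, -, hi⟩)
    · exact h0 h1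
    · exact hD0 i hi
  refine Pool.Agent.L0h1.JS.D.all_of hV hTR h0' (hg T h3) r hr L (hL'.trans ?_)
  refine Pool.Agent.L0h1.JS.SqI_mono ?_
  intro a ha
  exact h2 ha

/-- **one tower for all good sets, and for a proportion near `η` of the quadratic fields** -/
theorem final (hLW : S_LAWG) (hV : S_VMQN) (hTR : S_TRG) (S₀ : Finset ℕ) {k c : ℕ} (hk : 0 < k)
    (hc : c.Coprime k) : ∃ D : ℕ → ℕ,
      (∀ i, Squarefree (D i) ∧ 1 < D i ∧ D i ≡ c [MOD k]) ∧
      (∀ i j, i ≠ j → (D i).Coprime (D j)) ∧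
      (∀ i s, s ≠ 0 → (s ∈ S₀ ∨ s ≤ i) → (D i).Coprime s) ∧
      (∀ j, ¬ FiniteDimensional ℚ (SqF {b | ∃ i, j ≤ i ∧ b = D i})) ∧
      (∀ A : Finset ℕ, 0 ∉ A → GoodSet A → ∀ j, (∀ e ∈ GA A, e ∈ S₀ ∨ e ≤ j) →
        (∀ T : Finset ℕ, (∀ i ∈ T, j ≤ i) → GoodSet (A ∪ T.image D)) ∧
        ∀ L : IntermediateField ℚ QBar, FiniteDimensional ℚ L →
          L ≤ SqI {b | b ∈ A ∨ ∃ i, j ≤ i ∧ b = D i} → ∀ r : ℤ, r ≠ 0 → ShaZero L r) ∧
      ∀ q r : ℕ, 0 < q → (∃ m, Fam q r m) → ∀ ε : ℝ, 0 < ε → ∃ X₀ : ℕ, ∀ X : ℕ, X₀ ≤ X →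
        (eta - ε) * count (Fam q r) X ≤ count (fun m => Fam q r m ∧
          ∀ L : IntermediateField ℚ QBar, FiniteDimensional ℚ L →
            L ≤ SqI {b | b = m ∨ ∃ i, m ≤ i ∧ b = D i} → ∀ s : ℤ, s ≠ 0 → ShaZero L s) X := by
  obtain ⟨D, h1, h2, h2', h3⟩ := tower hLW hk hc S₀
  have hinj : Function.Injective D := by
    intro i j hij
    by_contra hne
    have h4 := h2 i j hne
    rw [hij, Nat.coprime_self] at h4
    have := (h1 j).2.1
    omega
  have hD0 : ∀ i, D i ≠ 0 := fun i => (h1 i).1.ne_zero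
  have h4 : ∀ A : Finset ℕ, 0 ∉ A → GoodSet A → ∀ j, (∀ e ∈ GA A, e ∈ S₀ ∨ e ≤ j) →
        ∀ T : Finset ℕ, (∀ i ∈ T, j ≤ i) → GoodSet (A ∪ T.image D) := by
    intro A h0 hA j hj T hT
    exact (Pool.Agent.L0h1.JS.goodE_iff _).2 (good_tower hinj hD0
      (fun e he hC hej T hT => h3 e he hC j hej T hT) h0
      ((Pool.Agent.L0h1.JS.goodE_iff _).1 hA) hj hT).2
  refine ⟨D, h1, h2, h2', ?_, fun A h0 hA j hj => ⟨h4 A h0 hA j hj, fun L hfd hL r hr =>
    fields hV hTR h0 hD0 (h4 A h0 hA j hj) hfd hL hr⟩, ?_⟩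
  · intro j
    refine Pool.Agent.L0h1.SJ.inf_degree ?_
    have h5 : (D '' Set.Ici j).Infinite := (Set.Ici_infinite j).image hinj.injOn
    refine h5.mono ?_
    rintro b ⟨i, hi, rfl⟩
    exact ⟨⟨i, hi, rfl⟩, (h1 i).1⟩
  · intro q r hq hF ε hε
    have h5 := Pool.Agent.L0h1.JS.D.joint hLW 1 (fun _ => 1) (fun _ => one_pos)
      (fun l l' _ => Subsingleton.elim l l') q r hq hF (fun _ => true)
    simp only [if_true, Finset.prod_const, Finset.card_univ, Fintype.card_fin, pow_one] at h5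
    refine Pool.Agent.L0h1.JS.D.ineq h5 (fun m hm hG => ?_) hε
    have hm0 : m ≠ 0 := hm.1.ne_zero
    have h6 : GoodSet {m} := by
      refine Pool.Agent.L0h1.JS.good_oneE hm0 ?_
      have := (hG 0).2 trivial
      rw [one_mul] at this
      exact this
    have h0 : 0 ∉ ({m} : Finset ℕ) := by
      rw [mem_singleton]
      exact hm0.symm
    intro L hfd hL s hs
    refine fields hV hTR (A := {m}) (j := m) h0 hD0 (h4 {m} h0 h6 m fun e he => Or.inr ?_) hfd ?_ hs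
    · rcases Pool.Agent.L0h1.SJ.GA_one hm0 he with rfl | rfl
      · exact Nat.one_le_iff_ne_zero.2 hm0
      · rw [sqf_sq hm.1]
    · refine hL.trans (Pool.Agent.L0h1.JS.SqI_mono ?_)
      rintro b (rfl | hb)
      · exact Or.inl (mem_singleton_self _)
      · exact Or.inr hb

end Pool.Agent.L0h1.GT.Sch
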